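import Mathlib

set_option autoImplicit false

namespace Pool.Agent.Results.MP_f5b38d_co.NotTight

open Finset SimpleGraph

open Classical in
/-- some bijective labelling of the edges by `1, ..., m` has pairwise distinct vertex sums -/
def Antimagic {V : Type} [Fintype V] (G : SimpleGraph V) : Prop :=
  ∃ f : Sym2 V → ℕ, Set.BijOn f G.edgeSet (Set.Icc 1 G.edgeSet.ncard) ∧
    Function.Injective fun v => ∑ w with G.Adj v w, f s(v, w)

/-- number of components isomorphic to the path on `r` vertices -/
noncomputable def comp {V : Type} (G : SimpleGraph V) (r : ℕ) : ℕ :=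
  {c : G.ConnectedComponent | Nonempty (G.induce c.supp ≃g pathGraph r)}.ncard

/-- number of internal edges -/
noncomputable def inner {V : Type} (G : SimpleGraph V) : ℕ :=
  {e ∈ G.edgeSet | ∀ v ∈ e, (G.neighborSet v).ncard ≠ 1}.ncard

noncomputable def beta {V : Type} [Fintype V] (G : SimpleGraph V) : ℤ :=
  ⌊min ((3 + 2 * √2) * ((G.edgeSet.ncard : ℝ) - Fintype.card V) +
      (1 + √2) * ((G.edgeSet.ncard : ℝ) + 1 / 2))
    (2 * (G.edgeSet.ncard : ℝ) + 5 * ((inner G : ℝ) - comp G 3) + 1)⌋

theorem low {α : Type} (s : Finset α) (g : α → ℕ) (h : Set.InjOn g s) (h1 : ∀ a ∈ s, 1 ≤ g a) :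
    s.card * (s.card + 1) ≤ 2 * ∑ a ∈ s, g a := by
  have hi : Set.InjOn (fun a => (g a : ℤ)) s := fun a ha b hb e => h ha hb (by simpa using e)
  have := sum_range_le_sum (s := s.image fun a => (g a : ℤ)) (c := 1) (by
    simp only [mem_image]
    rintro _ ⟨a, ha, rfl⟩
    exact_mod_cast h1 a ha)
  rw [card_image_of_injOn hi, sum_image hi] at this
  have e : ∀ n : ℕ, 2 * ∑ i ∈ range n, (1 + (i : ℤ)) = n * (n + 1) := by
    intro n
    induction n with
    | zero => simp
    | succ n ih => rw [sum_range_succ, mul_add, ih]; push_cast; ring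
  have e2 := e s.card
  zify
  linarith

open Classical in
theorem bound {V : Type} [Fintype V] (F : SimpleGraph V) (h : Antimagic F)
    (hi : ∀ v, ∃ w, F.Adj v w) (x : V) (d : ℕ) (hd : d ≤ (F.neighborSet x).ncard) :
    d * (d + 1) + (Fintype.card V - 1) * (Fintype.card V - 1 + 1) ≤
      2 * (F.edgeSet.ncard * (F.edgeSet.ncard + 1)) := by
  obtain ⟨f, h1, h2⟩ := h
  rw [← coe_edgeFinset, Set.ncard_coe_finset] at h1 ⊢
  rw [show F.neighborSet x = (univ.filter (F.Adj x) : Finset V) by ext; simp,
    Set.ncard_coe_finset] at hd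
  have p : ∀ v w, F.Adj v w → 1 ≤ f s(v, w) := fun v w k => (h1.mapsTo (by simpa using k)).1
  have a1 := low {w | F.Adj x w} (fun w => f s(x, w)) (fun a ha b hb e => by
    exact Sym2.congr_right.1 (h1.injOn (by simpa using ha) (by simpa using hb) e)) fun a ha =>
      p _ _ (by simpa using ha)
  have a2 := low (univ.erase x) _ h2.injOn fun v _ => by
    obtain ⟨w, hw⟩ := hi v
    exact (p v w hw).trans (single_le_sum (f := fun w => f s(v, w)) (fun _ _ => Nat.zero_le _)
      (by simpa using hw))
  rw [card_erase_of_mem (mem_univ x), card_univ] at a2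
  have a3 := add_sum_erase univ (fun v => ∑ w with F.Adj v w, f s(v, w)) (mem_univ x)
  have a4 : ∑ v, ∑ w with F.Adj v w, f s(v, w) ≤ 2 * ∑ e ∈ F.edgeFinset, f e := by
    have : ∑ v, ∑ w with F.Adj v w, f s(v, w) =
        ∑ q : V × V with F.Adj q.1 q.2, f s(q.1, q.2) := by
      rw [sum_filter, Fintype.sum_prod_type]
      simp only [sum_filter]
    rw [this, ← sum_fiberwise_of_maps_to (t := F.edgeFinset) (g := fun q => s(q.1, q.2))
      (fun q hq => by simpa using hq), mul_sum]
    refine sum_le_sum fun e _ => ?_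
    induction e using Sym2.ind with
    | _ a b =>
      rw [sum_congr rfl (g := fun _ => f s(a, b)) fun q hq => by rw [(mem_filter.1 hq).2],
        sum_const, smul_eq_mul]
      refine Nat.mul_le_mul_right _ ((card_le_card (t := {(a, b), (b, a)}) ?_).trans card_le_two)
      rintro ⟨u, v⟩ hq
      have := (mem_filter.1 hq).2
      simpa using this
  have a5 : 2 * ∑ e ∈ F.edgeFinset, f e = #F.edgeFinset * (#F.edgeFinset + 1) := by
    rw [sum_nbij (t := Icc 1 #F.edgeFinset) (g := fun i => i) f (fun a ha => by simpa using h1.mapsTo ha)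
      h1.injOn (by simpa using h1.surjOn) fun _ _ => rfl]
    generalize #F.edgeFinset = n
    induction n with
    | zero => simp
    | succ n ih => rw [sum_Icc_succ_top (by omega), mul_add, ih]; ring
  have a6 := (Nat.mul_le_mul hd (Nat.add_le_add_right hd 1)).trans a1
  omega

def G : SimpleGraph (Fin 20) := fromRel fun u v => u = 0 ∨ (u = 1 ∧ v = 2)

instance : DecidableRel G.Adj := fun _ _ => decidable_of_iff' _ (fromRel_adj _ _ _)

instance : DecidableRel (pathGraph 3).Adj := fun _ _ => decidable_of_iff' _ pathGraph_adj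

abbrev F := G ⊕g ((⊥ : SimpleGraph (Fin 49)) □ pathGraph 3)

instance : DecidableRel F.Adj
  | .inl u, .inl v => decidable_of_iff (G.Adj u v) (by simp)
  | .inr u, .inr v => decidable_of_iff (u.1 = v.1 ∧ (pathGraph 3).Adj u.2 v.2) (by simp; tauto)
  | .inl _, .inr _ => isFalse (by simp)
  | .inr _, .inl _ => isFalse (by simp)

theorem notF : ¬ Antimagic F := by
  intro h
  have e : 2 * #F.edgeFinset = 236 := by
    rw [two_mul_card_edgeFinset]
    decide +kernel
  have := bound F h (by decide +kernel) (.inl 0) 19 (by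
    rw [show F.neighborSet (.inl 0) = (univ.filter (F.Adj (.inl 0)) : Finset _) by ext; simp,
      Set.ncard_coe_finset]
    decide +kernel)
  rw [← coe_edgeFinset, Set.ncard_coe_finset, show #F.edgeFinset = 118 by omega] at this
  simp at this

theorem comp0 (r : ℕ) (hr : r ≠ 20) : comp G r = 0 := by
  rw [comp, Set.ncard_eq_zero, Set.eq_empty_iff_forall_notMem]
  rintro c ⟨e⟩
  have hc : G.Connected := by decide +kernel
  have : c.supp = Set.univ := by
    have := hc.preconnected.subsingleton_connectedComponent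
    ext v
    simp [Subsingleton.elim (G.connectedComponentMk v) c]
  have k := Nat.card_congr e.toEquiv
  rw [this] at k
  simp at k
  omega

theorem result : ∃ G : SimpleGraph (Fin 20), (∀ v, ∃ w, G.Adj v w) ∧ comp G 2 = 0 ∧ 0 ≤ beta G ∧
    ∃ t : ℕ, (t : ℤ) ≤ beta G ∧
      ¬ Antimagic (G ⊕g ((⊥ : SimpleGraph (Fin t)) □ pathGraph 3)) := by
  have e : G.edgeSet.ncard = 20 := by
    rw [← coe_edgeFinset, Set.ncard_coe_finset]
    decide +kernel
  have e2 : 2 ≤ inner G := by
    have d : ∀ v, (G.neighborSet v).ncard = G.degree v := fun v => by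
      rw [← card_neighborFinset_eq_degree, ← Set.ncard_coe_finset, coe_neighborFinset]
    refine le_trans (Set.ncard_pair (a := s(0, 1)) (b := s(0, 2)) (by decide)).ge
      (Set.ncard_le_ncard ?_)
    simp only [d]
    rintro _ (rfl | rfl) <;> simp only [Set.mem_ofPred_eq, mem_edgeSet, Sym2.mem_iff,
      forall_eq_or_imp, forall_eq] <;> decide +kernel
  have b : 49 ≤ beta G := by
    have s : (1.4142 : ℝ) ≤ √2 := Real.le_sqrt_of_sq_le (by norm_num)
    have : (2 : ℝ) ≤ inner G := by exact_mod_cast e2
    rw [beta, Int.le_floor, e, comp0 3 (by decide), le_min_iff]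
    constructor <;> norm_num <;> linarith
  exact ⟨G, by decide +kernel, comp0 2 (by decide), by omega, 49, b, notF⟩

end Pool.Agent.Results.MP_f5b38d_co.NotTight
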